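import Mathlib
import Pool.Agent.Helper62.FrameDefs
import Pool.Agent.Helper62.OrdFrames

namespace Pool.Agent.Results.MP_d97c10_lc.LocalFiniteness

open Pool.Agent.Helper62 Pool.Agent.Helper62.FrameDefs

universe u

/-- For every finite family of ordinals, the modal algebras of the direct products of the frames
`(α i, ≤)` and of the frames `(α i, <)` are locally finite. The same holds for every subframe of
every direct product in which each factor is `(α i, <)` or `(α i, ≤)`. -/
theorem result (k : ℕ) (α : Fin k → Ordinal.{u}) :
    AlgLocallyFinite (prodLE α) ∧ AlgLocallyFinite (prodLT α) ∧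
      ∀ (s : Set (Fin k)) (S : Set (∀ i, Set.Iio (α i))),
        AlgLocallyFinite (subframe (prodMixed α s) S) := by
  refine ⟨?_, ?_, fun s S => (OrdFrames.tunable_mixed α s S).locallyFinite⟩
  · rw [← OrdFrames.prodMixed_empty]
    exact (OrdFrames.tunable_mixed_full α ∅).locallyFinite
  · rw [← OrdFrames.prodMixed_univ]
    exact (OrdFrames.tunable_mixed_full α Set.univ).locallyFinite

end Pool.Agent.Results.MP_d97c10_lc.LocalFiniteness
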